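import Mathlib
import Pool.Agent.Lib.MP_2bc700_co.Core
import Pool.Agent.Lib.MP_2bc700_co.Group

/-!
# Cayley graphs of abelian groups with circular chromatic number below 4

If the Cayley graph of an abelian group `G` (finite or infinite) with a symmetric set `S` is
3-colourable, or more generally has a circular `r`-colouring with `r < 4`, then a single character
`χ : G → ℝ/ℤ` has distance at least `1/r` from `0` on `S` (and conversely). For `G = ℤ/p` the characters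
are the linear polynomials `x ↦ b x`, which are sent by all of `S` outside the interval `(-p/r, p/r)`.
-/

set_option autoImplicit false

namespace Pool.Agent.Results.MP_2bc700_co.CircularBelowFour

open SimpleGraph

/-- `‖y/p‖_{ℝ/ℤ}` for `y ∈ ℤ/p`: the distance from `y/p` to the nearest integer. -/
noncomputable def distInt (p : ℕ) (y : ZMod p) : ℝ :=
  |(y.val : ℝ) / p - round ((y.val : ℝ) / p)|

/-- a circular `r`-colouring: colours are points of a circle of length `r` (represented by reals) and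
adjacent vertices get colours at circular distance at least `1`. -/
def IsCircularColoring {V : Type*} (G : SimpleGraph V) (r : ℝ) (c : V → ℝ) : Prop :=
  ∀ x y, G.Adj x y → ∀ k : ℤ, 1 ≤ |c x - c y - k * r|

section group

variable {G : Type*} [AddCommGroup G] {S : Set G}

lemma adj_iff_group (hS : ∀ s ∈ S, -s ∈ S) (h0 : (0 : G) ∉ S) (x y : G) :
    (circulantGraph S).Adj x y ↔ x - y ∈ S := by
  rw [circulantGraph_adj]
  constructor
  · rintro ⟨_, h | h⟩
    · exact h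
    · have := hS _ h
      rwa [neg_sub] at this
  · intro h
    refine ⟨?_, Or.inl h⟩
    rintro rfl
    rw [sub_self] at h
    exact h0 h

lemma exists_char (hS : ∀ s ∈ S, -s ∈ S) (h0 : (0 : G) ∉ S) {r : ℝ} (h2 : 2 ≤ r) (h4 : r < 4)
    {c : G → ℝ} (hc : IsCircularColoring (circulantGraph S) r c) :
    ∃ χ : G →+ UnitAddCircle, ∀ s ∈ S, 1 / r ≤ ‖χ s‖ := by
  have hr : 0 < r := by linarith
  refine Pool.Agent.Lib.MP_2bc700_co.core_group S (1 / r)
    (by rw [div_lt_div_iff₀ (by norm_num) hr]; linarith) (fun x => c x / r) ?_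
  intro x s hs k
  have hadj : (circulantGraph S).Adj (x + s) x := by
    rw [adj_iff_group hS h0]; simpa using hs
  have h := hc _ _ hadj k
  have e : c (x + s) / r - c x / r - k = (c (x + s) - c x - k * r) / r := by
    field_simp
  rw [e, abs_div, abs_of_pos hr]
  exact div_le_div_of_nonneg_right h hr.le

lemma of_char (hS : ∀ s ∈ S, -s ∈ S) (h0 : (0 : G) ∉ S) {r : ℝ} (hr : 0 < r)
    {χ : G →+ UnitAddCircle} (hχ : ∀ s ∈ S, 1 / r ≤ ‖χ s‖) :
    ∃ c : G → ℝ, IsCircularColoring (circulantGraph S) r c := by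
  have hex : ∀ x, ∃ t : ℝ, (t : UnitAddCircle) = χ x := fun x => QuotientAddGroup.mk_surjective _
  choose t ht using hex
  refine ⟨fun x => r * t x, ?_⟩
  intro x y hxy k
  rw [adj_iff_group hS h0] at hxy
  have h1 : 1 / r ≤ |t x - t y - k| := by
    refine (hχ _ hxy).trans ?_
    rw [map_sub, ← ht, ← ht, ← AddCircle.coe_sub, UnitAddCircle.norm_eq]
    exact round_le _ k
  show 1 ≤ |r * t x - r * t y - k * r|
  have e : r * t x - r * t y - k * r = r * (t x - t y - k) := by ring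
  rw [e, abs_mul, abs_of_pos hr]
  have h6 := mul_le_mul_of_nonneg_left h1 hr.le
  rwa [mul_one_div_cancel hr.ne'] at h6

lemma circ_three_of_colorable {V : Type*} {Γ : SimpleGraph V} (h : Γ.Colorable 3) :
    ∃ c : V → ℝ, IsCircularColoring Γ 3 c := by
  obtain ⟨c⟩ := h
  refine ⟨fun x => ((c x : ℕ) : ℝ), ?_⟩
  intro x y hxy k
  have hne : c x ≠ c y := c.valid hxy
  have h1 : ((c x : ℕ) : ℤ) - ((c y : ℕ) : ℤ) - k * 3 ≠ 0 := by
    have hx := (c x).2
    have hy := (c y).2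
    have hne' : (c x : ℕ) ≠ (c y : ℕ) := fun h => hne (Fin.ext h)
    omega
  have h2 := Int.one_le_abs h1
  have h3 : ((1 : ℤ) : ℝ) ≤ ((|((c x : ℕ) : ℤ) - ((c y : ℕ) : ℤ) - k * 3| : ℤ) : ℝ) := by
    exact_mod_cast h2
  push_cast at h3
  exact h3

lemma colorable_of_circ_three {V : Type*} {Γ : SimpleGraph V} {c : V → ℝ}
    (hc : IsCircularColoring Γ 3 c) : Γ.Colorable 3 := by
  have h0 : ∀ x, 0 ≤ ⌊3 * Int.fract (c x / 3)⌋ := fun x =>
    Int.floor_nonneg.2 (mul_nonneg (by norm_num) (Int.fract_nonneg _))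
  have h3 : ∀ x, ⌊3 * Int.fract (c x / 3)⌋ < 3 := fun x => by
    rw [Int.floor_lt]
    have := Int.fract_lt_one (c x / 3)
    push_cast
    linarith
  refine ⟨Coloring.mk (fun x => (⟨⌊3 * Int.fract (c x / 3)⌋.toNat, by
    have a := h0 x
    have b := h3 x
    omega⟩ : Fin 3)) ?_⟩
  intro x y hxy heq
  have h4 : ⌊3 * Int.fract (c x / 3)⌋.toNat = ⌊3 * Int.fract (c y / 3)⌋.toNat := congrArg Fin.val heq
  have h5 : ⌊3 * Int.fract (c x / 3)⌋ = ⌊3 * Int.fract (c y / 3)⌋ := by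
    have a := h0 x
    have b := h0 y
    omega
  have h6 := Int.abs_sub_lt_one_of_floor_eq_floor h5
  have h7 := hc x y hxy (⌊c x / 3⌋ - ⌊c y / 3⌋)
  have a1 := Int.floor_add_fract (c x / 3)
  have a2 := Int.floor_add_fract (c y / 3)
  have e : c x - c y - ((⌊c x / 3⌋ - ⌊c y / 3⌋ : ℤ) : ℝ) * 3 =
      3 * Int.fract (c x / 3) - 3 * Int.fract (c y / 3) := by
    push_cast
    linarith
  rw [e] at h7
  linarith

/-- the general theorem -/
theorem group_result (hS : ∀ s ∈ S, -s ∈ S) (h0 : (0 : G) ∉ S) :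
    ((circulantGraph S).Colorable 3 ↔ ∃ χ : G →+ UnitAddCircle, ∀ s ∈ S, 1 / 3 ≤ ‖χ s‖) ∧
    ∀ r : ℝ, 2 ≤ r → r < 4 →
      ((∃ c : G → ℝ, IsCircularColoring (circulantGraph S) r c) ↔
        ∃ χ : G →+ UnitAddCircle, ∀ s ∈ S, 1 / r ≤ ‖χ s‖) := by
  refine ⟨⟨fun h => ?_, fun ⟨χ, hχ⟩ => ?_⟩, fun r h2 h4 =>
    ⟨fun ⟨c, hc⟩ => exists_char hS h0 h2 h4 hc, fun ⟨χ, hχ⟩ => of_char hS h0 (by linarith) hχ⟩⟩
  · obtain ⟨c, hc⟩ := circ_three_of_colorable h
    exact exists_char hS h0 (by norm_num) (by norm_num) hc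
  · obtain ⟨c, hc⟩ := of_char hS h0 (r := 3) (by norm_num) hχ
    exact colorable_of_circ_three hc

end group

lemma le_distInt_iff (p : ℕ) (y : ZMod p) (q : ℝ) :
    q ≤ distInt p y ↔ ∀ k : ℤ, q ≤ |(y.val : ℝ) / p - k| := by
  constructor
  · intro h k
    exact h.trans (round_le _ k)
  · intro h
    exact h _

section

variable {p : ℕ} [Fact p.Prime] {S : Set (ZMod p)}

lemma adj_iff (hS : ∀ s ∈ S, -s ∈ S) (h0 : (0 : ZMod p) ∉ S) (x y : ZMod p) :
    (circulantGraph S).Adj x y ↔ x - y ∈ S := by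
  rw [circulantGraph_adj]
  constructor
  · rintro ⟨_, h | h⟩
    · exact h
    · have := hS _ h
      rwa [neg_sub] at this
  · intro h
    refine ⟨?_, Or.inl h⟩
    rintro rfl
    rw [sub_self] at h
    exact h0 h

lemma exists_lin (hS : ∀ s ∈ S, -s ∈ S) (h0 : (0 : ZMod p) ∉ S) {r : ℝ} (h2 : 2 ≤ r) (h4 : r < 4)
    {c : ZMod p → ℝ} (hc : IsCircularColoring (circulantGraph S) r c) :
    ∃ b : ZMod p, ∀ s ∈ S, 1 / r ≤ distInt p (b * s) := by
  have hr : 0 < r := by linarith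
  obtain ⟨b, hb⟩ := Pool.Agent.Lib.MP_2bc700_co.core S (1 / r)
    (by rw [div_lt_div_iff₀ (by norm_num) hr]; linarith) (fun x => c x / r) (by
      intro x s hs k
      have hadj : (circulantGraph S).Adj (x + s) x := by
        rw [adj_iff hS h0]; simpa using hs
      have h := hc _ _ hadj k
      have e : c (x + s) / r - c x / r - k = (c (x + s) - c x - k * r) / r := by
        field_simp
      rw [e, abs_div, abs_of_pos hr]
      exact div_le_div_of_nonneg_right h hr.le)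
  exact ⟨b, fun s hs => (le_distInt_iff _ _ _).mpr (hb s hs)⟩

lemma val_sub_int (b x y : ZMod p) : ∃ l : ℤ, ((b * x).val : ℝ) - (b * y).val =
    (b * (x - y)).val + l * p := by
  have h2 : ((((b * x).val : ℤ) - ((b * y).val : ℤ) - ((b * (x - y)).val : ℤ) : ℤ) : ZMod p) = 0 := by
    push_cast
    rw [ZMod.natCast_zmod_val, ZMod.natCast_zmod_val, ZMod.natCast_zmod_val]
    ring
  rw [ZMod.intCast_zmod_eq_zero_iff_dvd] at h2
  obtain ⟨l, hl⟩ := h2
  refine ⟨l, ?_⟩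
  have h3 : ((((b * x).val : ℤ) - ((b * y).val : ℤ) - ((b * (x - y)).val : ℤ) : ℤ) : ℝ) =
      ((p * l : ℤ) : ℝ) := by rw [hl]
  push_cast at h3
  linarith

lemma of_lin (hS : ∀ s ∈ S, -s ∈ S) (h0 : (0 : ZMod p) ∉ S) {r : ℝ} (hr : 0 < r)
    {b : ZMod p} (hb : ∀ s ∈ S, 1 / r ≤ distInt p (b * s)) :
    IsCircularColoring (circulantGraph S) r (fun x => r * (((b * x).val : ℝ) / p)) := by
  have hp : (0 : ℝ) < p := by exact_mod_cast (Fact.out : p.Prime).pos
  intro x y hxy k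
  rw [adj_iff hS h0] at hxy
  obtain ⟨l, hl⟩ := val_sub_int b x y
  have h := (le_distInt_iff _ _ _).mp (hb _ hxy) (k - l)
  have e : r * (((b * x).val : ℝ) / p) - r * (((b * y).val : ℝ) / p) - k * r =
      r * (((b * (x - y)).val : ℝ) / p - ((k - l : ℤ) : ℝ)) := by
    have h5 : ((b * x).val : ℝ) = (b * y).val + (b * (x - y)).val + l * p := by linarith
    rw [h5]
    push_cast
    field_simp
    ring
  show 1 ≤ |r * (((b * x).val : ℝ) / p) - r * (((b * y).val : ℝ) / p) - k * r|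
  rw [e, abs_mul, abs_of_pos hr]
  have h6 := mul_le_mul_of_nonneg_left h hr.le
  rwa [mul_one_div_cancel hr.ne'] at h6

lemma three_of_colorable (h : (circulantGraph S).Colorable 3) :
    ∃ c : ZMod p → ℝ, IsCircularColoring (circulantGraph S) 3 c := by
  obtain ⟨c⟩ := h
  refine ⟨fun x => ((c x : ℕ) : ℝ), ?_⟩
  intro x y hxy k
  have hne : c x ≠ c y := c.valid hxy
  have h1 : ((c x : ℕ) : ℤ) - ((c y : ℕ) : ℤ) - k * 3 ≠ 0 := by
    have hx := (c x).2
    have hy := (c y).2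
    have hne' : (c x : ℕ) ≠ (c y : ℕ) := fun h => hne (Fin.ext h)
    omega
  have h2 := Int.one_le_abs h1
  have h3 : ((1 : ℤ) : ℝ) ≤ ((|((c x : ℕ) : ℤ) - ((c y : ℕ) : ℤ) - k * 3| : ℤ) : ℝ) := by
    exact_mod_cast h2
  push_cast at h3
  exact h3

lemma colorable_of_lin (hS : ∀ s ∈ S, -s ∈ S) (h0 : (0 : ZMod p) ∉ S)
    {b : ZMod p} (hb : ∀ s ∈ S, 1 / 3 ≤ distInt p (b * s)) : (circulantGraph S).Colorable 3 := by
  have hp : (0 : ℝ) < p := by exact_mod_cast (Fact.out : p.Prime).pos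
  have hpN : 0 < p := (Fact.out : p.Prime).pos
  have hlt : ∀ x : ZMod p, 3 * (b * x).val / p < 3 := by
    intro x
    rw [Nat.div_lt_iff_lt_mul hpN]
    have := ZMod.val_lt (b * x)
    omega
  refine ⟨Coloring.mk (fun x => (⟨3 * (b * x).val / p, hlt x⟩ : Fin 3)) ?_⟩
  intro x y hxy heq
  have heq' : 3 * (b * x).val / p = 3 * (b * y).val / p := congrArg Fin.val heq
  rw [adj_iff hS h0] at hxy
  obtain ⟨l, hl⟩ := val_sub_int b x y
  have h := (le_distInt_iff _ _ _).mp (hb _ hxy) (-l)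
  have h1 := Nat.div_add_mod (3 * (b * x).val) p
  have h2 := Nat.div_add_mod (3 * (b * y).val) p
  have h3 := Nat.mod_lt (3 * (b * x).val) hpN
  have h4 := Nat.mod_lt (3 * (b * y).val) hpN
  rw [heq'] at h1
  have h1' : (p : ℝ) * (3 * (b * y).val / p : ℕ) + (3 * (b * x).val % p : ℕ) = 3 * (b * x).val := by
    exact_mod_cast h1
  have h2' : (p : ℝ) * (3 * (b * y).val / p : ℕ) + (3 * (b * y).val % p : ℕ) = 3 * (b * y).val := by
    exact_mod_cast h2
  have h3' : ((3 * (b * x).val % p : ℕ) : ℝ) < p := by exact_mod_cast h3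
  have h4' : ((3 * (b * y).val % p : ℕ) : ℝ) < p := by exact_mod_cast h4
  have h5 : (0 : ℝ) ≤ ((3 * (b * x).val % p : ℕ) : ℝ) := Nat.cast_nonneg _
  have h6 : (0 : ℝ) ≤ ((3 * (b * y).val % p : ℕ) : ℝ) := Nat.cast_nonneg _
  have e : (((b * (x - y)).val : ℝ) / p - ((-l : ℤ) : ℝ)) = (((b * x).val : ℝ) - (b * y).val) / p := by
    rw [hl]; push_cast; field_simp; ring
  rw [e, abs_div, abs_of_pos hp, div_le_div_iff₀ (by norm_num) hp] at h
  have h7 : |((b * x).val : ℝ) - (b * y).val| * 3 < p := by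
    rcases abs_cases (((b * x).val : ℝ) - (b * y).val) with ⟨ha, _⟩ | ⟨ha, _⟩ <;> rw [ha] <;> linarith
  linarith

end

/-- the cyclic groups of prime order -/
theorem prime_result (p : ℕ) [Fact p.Prime] (S : Set (ZMod p)) (hS : ∀ s ∈ S, -s ∈ S)
    (h0 : (0 : ZMod p) ∉ S) :
    ((circulantGraph S).Colorable 3 ↔ ∃ b : ZMod p, ∀ s ∈ S, 1 / 3 ≤ distInt p (b * s)) ∧
    ∀ r : ℝ, 2 ≤ r → r < 4 →
      ((∃ c : ZMod p → ℝ, IsCircularColoring (circulantGraph S) r c) ↔
        ∃ b : ZMod p, ∀ s ∈ S, 1 / r ≤ distInt p (b * s)) := by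
  refine ⟨⟨fun h => ?_, fun ⟨b, hb⟩ => colorable_of_lin hS h0 hb⟩, fun r h2 h4 =>
    ⟨fun ⟨c, hc⟩ => exists_lin hS h0 h2 h4 hc, fun ⟨b, hb⟩ => ⟨_, of_lin hS h0 (by linarith) hb⟩⟩⟩
  obtain ⟨c, hc⟩ := three_of_colorable h
  exact exists_lin hS h0 (by norm_num) (by norm_num) hc

/-- (1) For every abelian group `G` and symmetric `S ⊆ G` without `0`: the Cayley graph `Cay(G, S)` is
3-colourable iff some character `χ : G → ℝ/ℤ` satisfies `‖χ(s)‖ ≥ 1/3` on `S`; and, for every real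
`2 ≤ r < 4`, it has a circular `r`-colouring iff some character satisfies `‖χ(s)‖ ≥ 1/r` on `S`.
(2) For `G = ℤ/p`, `p` prime, the characters are the linear polynomials `x ↦ b x`: `Cay(ℤ/p, S)` is
3-colourable iff `‖b s / p‖ ≥ 1/3` on `S` for some `b`, and has a circular `r`-colouring iff
`‖b s / p‖ ≥ 1/r` on `S` for some `b`. -/
theorem result :
    (∀ (G : Type*) [AddCommGroup G] (S : Set G), (∀ s ∈ S, -s ∈ S) → (0 : G) ∉ S →
      ((circulantGraph S).Colorable 3 ↔ ∃ χ : G →+ UnitAddCircle, ∀ s ∈ S, 1 / 3 ≤ ‖χ s‖) ∧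
      ∀ r : ℝ, 2 ≤ r → r < 4 →
        ((∃ c : G → ℝ, IsCircularColoring (circulantGraph S) r c) ↔
          ∃ χ : G →+ UnitAddCircle, ∀ s ∈ S, 1 / r ≤ ‖χ s‖)) ∧
    ∀ (p : ℕ) [Fact p.Prime] (S : Set (ZMod p)), (∀ s ∈ S, -s ∈ S) → (0 : ZMod p) ∉ S →
      ((circulantGraph S).Colorable 3 ↔ ∃ b : ZMod p, ∀ s ∈ S, 1 / 3 ≤ distInt p (b * s)) ∧
      ∀ r : ℝ, 2 ≤ r → r < 4 →
        ((∃ c : ZMod p → ℝ, IsCircularColoring (circulantGraph S) r c) ↔
          ∃ b : ZMod p, ∀ s ∈ S, 1 / r ≤ distInt p (b * s)) :=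
  ⟨fun _ _ _ hS h0 => group_result hS h0, fun p _ S hS h0 => prime_result p S hS h0⟩

end Pool.Agent.Results.MP_2bc700_co.CircularBelowFour
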