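import Mathlib
import Pool.Agent.Lib.MP_2bc700_co.Thick3

/-!
# The quadratic Bohr question is equivalent to its uniform linear version

Quadratic terms never help: Q1 (polynomials of degree at most 2, primes) holds if and only if, for every
`C`, there is `K` such that for every modulus `q` the generating set of every Cayley graph on `ℤ/q` with
chromatic number at most `C` is covered by `K` linear polynomials, even with the fixed radius `1/4`.
-/

set_option autoImplicit false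

namespace Pool.Agent.Results.MP_2bc700_co.QuadraticEqLinear

open SimpleGraph

open Pool.Agent.Lib.MP_2bc700_co.Thick

/-- Q1 as posed: polynomials `a x² + b x`, primes `p₀ < p₁ < …`, radius `1/K`. -/
def QuadraticStatement : Prop :=
  ∀ (C : ℕ) (p : ℕ → ℕ) (S : ∀ i, Set (ZMod (p i))), StrictMono p → 3 ≤ p 0 →
    (∀ i, (p i).Prime) → (∀ i, ∀ s ∈ S i, -s ∈ S i) → (∀ i, (0 : ZMod (p i)) ∉ S i) →
    (∀ i, (circulantGraph (S i)).Colorable C) →
    ∃ K : ℕ, 0 < K ∧ ∀ i, ∃ a b : Fin K → ZMod (p i),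
      ∀ s ∈ S i, ∃ j, 1 / (K : ℝ) < distInt (p i) (a j * s ^ 2 + b j * s)

/-- The uniform linear version for all moduli, with the fixed radius `1/4`. -/
def UniformLinearStatement : Prop :=
  ∀ C : ℕ, ∃ K : ℕ, ∀ q : ℕ, 0 < q → ∀ S : Set (ZMod q), (∀ s ∈ S, -s ∈ S) → (0 : ZMod q) ∉ S →
    (circulantGraph S).Colorable C →
    ∃ b : Fin K → ZMod q, ∀ s ∈ S, ∃ j, 1 / 4 < distInt q (b j * s)

lemma linear_of_quadratic (h : QuadraticStatement) : UniformLinearStatement := by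
  intro C
  by_contra hcon
  push Not at hcon
  -- a bad set for every number of quadratics, modulo every large prime
  have key : ∀ K : ℕ, ∃ P₀ : ℕ, ∀ p : ℕ, p.Prime → P₀ < p → ∃ S : Set (ZMod p),
      (∀ s ∈ S, -s ∈ S) ∧ (0 : ZMod p) ∉ S ∧ (circulantGraph S).Colorable (2 * C) ∧
      ¬ ∃ a b : Fin K → ZMod p, ∀ s ∈ S, ∃ j, 1 / (K : ℝ) < distInt p (a j * s ^ 2 + b j * s) := by
    intro K
    have hr : (0 : ℝ) < 1 / ((K : ℝ) + 2) := by positivity
    have hr2 : 1 / ((K : ℝ) + 2) ≤ 1 / 2 := by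
      apply one_div_le_one_div_of_le (by norm_num)
      have : (0 : ℝ) ≤ K := Nat.cast_nonneg _
      linarith
    obtain ⟨N, hN⟩ := main K (1 / ((K : ℝ) + 2)) hr hr2
    obtain ⟨q, hq, S, hS, h0, hc, hbad⟩ :=
      hcon (Fintype.card ((Fin K → Fin (N + 1)) × (Fin K → Fin (N + 1))))
    obtain ⟨B, P₀, hP⟩ := hN q hq
    refine ⟨P₀, fun p hp hpP => ?_⟩
    have : Fact p.Prime := ⟨hp⟩
    refine ⟨thick p q S, thick_symm p q S hS, zero_not_mem_thick p q S h0,
      thick_colorable p q C S hS h0 hc, ?_⟩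
    rintro ⟨a, b, hab⟩
    let e := Fintype.equivFin ((Fin K → Fin (N + 1)) × (Fin K → Fin (N + 1)))
    obtain ⟨s, hs, hsbad⟩ := hbad (fun l => bb p q K N B b (e.symm l).1 (e.symm l).2)
    obtain ⟨i, j, hij⟩ := hP p hpP a b s (by
      intro x hx
      obtain ⟨j, hj⟩ := hab x ⟨s, hs, hx⟩
      refine ⟨j, le_trans ?_ hj.le⟩
      have hK : (0 : ℝ) < K := by exact_mod_cast Fin.pos j
      apply one_div_le_one_div_of_le hK
      linarith)
    have h2 := hsbad (e (i, j))
    rw [Equiv.symm_apply_apply] at h2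
    linarith
  have key2 : ∀ K : ℕ, ∃ᶠ p in Filter.atTop, (p.Prime ∧ 3 ≤ p) ∧ ∃ S : Set (ZMod p),
      (∀ s ∈ S, -s ∈ S) ∧ (0 : ZMod p) ∉ S ∧ (circulantGraph S).Colorable (2 * C) ∧
      ¬ ∃ a b : Fin K → ZMod p, ∀ s ∈ S, ∃ j, 1 / (K : ℝ) < distInt p (a j * s ^ 2 + b j * s) := by
    intro K
    obtain ⟨P₀, hP₀⟩ := key K
    rw [Filter.frequently_atTop]
    intro M
    obtain ⟨p, hp1, hp2⟩ := Nat.exists_infinite_primes (max (max M 3) (P₀ + 1))
    refine ⟨p, le_trans (le_trans (le_max_left _ _) (le_max_left _ _)) hp1,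
      ⟨hp2, le_trans (le_trans (le_max_right _ _) (le_max_left _ _)) hp1⟩, hP₀ p hp2 ?_⟩
    have := le_trans (le_max_right (max M 3) (P₀ + 1)) hp1
    omega
  obtain ⟨φ, hφ, hφ2⟩ := Filter.extraction_forall_of_frequently key2
  choose hpr S hS h0 hc hbad using hφ2
  obtain ⟨K, _, hK2⟩ := h (2 * C) φ S hφ (hpr 0).2 (fun i => (hpr i).1) hS h0 hc
  exact hbad K (hK2 K)

lemma quadratic_of_linear (h : UniformLinearStatement) : QuadraticStatement := by
  intro C p S _ _ hpr hS h0 hc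
  obtain ⟨K, hK⟩ := h C
  refine ⟨K + 4, by omega, fun i => ?_⟩
  obtain ⟨b, hb⟩ := hK (p i) (hpr i).pos (S i) (hS i) (h0 i) (hc i)
  refine ⟨fun _ => 0, fun j => if hj : (j : ℕ) < K then b ⟨j, hj⟩ else 0, fun s hs => ?_⟩
  obtain ⟨j, hj⟩ := hb s hs
  refine ⟨⟨j, by omega⟩, ?_⟩
  show 1 / ((K + 4 : ℕ) : ℝ) <
    distInt (p i) (0 * s ^ 2 + (if hj : (j : ℕ) < K then b ⟨j, hj⟩ else 0) * s)
  rw [dif_pos j.2, zero_mul, zero_add]
  refine lt_of_le_of_lt ?_ hj
  apply one_div_le_one_div_of_le (by norm_num)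
  push_cast
  have : (0 : ℝ) ≤ K := Nat.cast_nonneg _
  linarith

/-- **Quadratic terms do not help.** Q1 holds if and only if its uniform linear version holds for all
moduli. -/
theorem result : QuadraticStatement ↔ UniformLinearStatement :=
  ⟨linear_of_quadratic, quadratic_of_linear⟩

end Pool.Agent.Results.MP_2bc700_co.QuadraticEqLinear
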